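import Pool.Agent.MVO.StmtsE

set_option autoImplicit false

/-! Row NFS of squad MVO: normal form for s2. -/

namespace Pool.Agent.MVO.H66

open Pool.Agent.Helper14_MV Pool.Agent.Helper2_MV Pool.Agent.MVO

/-- the letter `e` and the simple letters -/
def pe (k e : ℕ) : ℕ → Bool := fun x => decide (x = e ∨ (2 ≤ x ∧ x ≤ k + 1))

private theorem pe_true {k e x : ℕ} : pe k e x = true ↔ x = e ∨ (2 ≤ x ∧ x ≤ k + 1) := by
  unfold pe
  rw [decide_eq_true_iff]

private theorem ns0 (k : ℕ) : NS k 0 := fun h => by omega

private theorem split_last {p : ℕ → Bool} {u l : List ℕ} {c : ℕ} (h : u.filter p = l ++ [c]) :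
    ∃ u1 u2, u = u1 ++ c :: u2 ∧ u1.filter p = l ∧ u2.filter p = [] := by
  obtain ⟨l1, l2, h1, h2, h3⟩ := List.filter_eq_append_iff.1 h
  obtain ⟨m1, m2, h4, h5, h6, h7⟩ := List.filter_eq_cons_iff.1 h3
  refine ⟨l1 ++ m1, m2, ?_, ?_, h7⟩
  · rw [h1, h4, List.append_assoc]
  · rw [List.filter_append, h2, List.filter_eq_nil_iff.2 h5, List.append_nil]

private theorem rl_append (c d : ℕ) (l m : List ℕ) : rl c d (l ++ m) = rl c d l ++ rl c d m :=
  List.filter_append _ _

private theorem mem_rl {c d x : ℕ} {l : List ℕ} : x ∈ rl c d l ↔ x ∈ l ∧ (x = c ∨ x = d) := by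
  unfold rl
  rw [List.mem_filter, decide_eq_true_iff]

private theorem rl_comm (c d : ℕ) (l : List ℕ) : rl c d l = rl d c l := by
  unfold rl
  refine List.filter_congr fun x _ => ?_
  exact decide_eq_decide.2 or_comm

private theorem rl_nil_iff {c d : ℕ} {l : List ℕ} : rl c d l = [] ↔ c ∉ l ∧ d ∉ l := by
  rw [List.eq_nil_iff_forall_not_mem]
  constructor
  · intro h
    exact ⟨fun hc => h c (mem_rl.2 ⟨hc, Or.inl rfl⟩), fun hd => h d (mem_rl.2 ⟨hd, Or.inr rfl⟩)⟩
  · rintro ⟨h1, h2⟩ x hx
    obtain ⟨h3, h4 | h4⟩ := mem_rl.1 hx
    · exact h1 (h4 ▸ h3)
    · exact h2 (h4 ▸ h3)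

private theorem rl_cons_of_ne {c d x : ℕ} (l : List ℕ) (h1 : x ≠ c) (h2 : x ≠ d) :
    rl c d (x :: l) = rl c d l := by
  unfold rl
  rw [List.filter_cons_of_neg]
  rw [decide_eq_true_iff]
  rintro (h | h)
  · exact h1 h
  · exact h2 h

private theorem rl_cons_left (c d : ℕ) (l : List ℕ) : rl c d (c :: l) = c :: rl c d l := by
  unfold rl
  rw [List.filter_cons_of_pos]
  rw [decide_eq_true_iff]
  exact Or.inl rfl

private theorem rl_cons_right (c d : ℕ) (l : List ℕ) : rl c d (d :: l) = d :: rl c d l := by
  unfold rl
  rw [List.filter_cons_of_pos]
  rw [decide_eq_true_iff]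
  exact Or.inr rfl

private theorem head_append {l m : List ℕ} (h : l ≠ []) : (l ++ m).head? = l.head? := by
  cases l with
  | nil => exact absurd rfl h
  | cons a l => rfl

private theorem getLast_append {l m : List ℕ} (h : m ≠ []) : (l ++ m).getLast? = m.getLast? := by
  rw [List.getLast?_append]
  cases hm : m.getLast? with
  | none => exact absurd (List.getLast?_eq_none_iff.1 hm) h
  | some a => rfl

/-- all entries of the restriction to `c`, `d` of a list without `c` are `d` -/
private theorem last_of_not_mem {c d : ℕ} {l : List ℕ} (hc : c ∉ l) (hd : d ∈ l) :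
    (rl c d l).getLast? = some d := by
  have h1 : rl c d l ≠ [] := by
    intro h
    exact (rl_nil_iff.1 h).2 hd
  obtain ⟨x, hx⟩ : ∃ x, (rl c d l).getLast? = some x := by
    cases h : (rl c d l).getLast? with
    | none => exact absurd (List.getLast?_eq_none_iff.1 h) h1
    | some x => exact ⟨x, rfl⟩
  have h2 : x ∈ rl c d l := List.mem_of_getLast? hx
  obtain ⟨h3, h4 | h4⟩ := mem_rl.1 h2
  · exact absurd (h4 ▸ h3) hc
  · rw [hx, h4]

private theorem head_of_not_mem {c d : ℕ} {l : List ℕ} (hc : c ∉ l) (hd : d ∈ l) :
    (rl c d l).head? = some d := by
  cases h : rl c d l with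
  | nil => exact absurd hd (rl_nil_iff.1 h).2
  | cons x m =>
    have h2 : x ∈ rl c d l := by
      rw [h]
      exact List.mem_cons_self
    obtain ⟨h3, h4 | h4⟩ := mem_rl.1 h2
    · exact absurd (h4 ▸ h3) hc
    · rw [h4]
      rfl

/-- the counts agree -/
private theorem count_eq {k : ℕ} {u v : List ℕ}
    (h : ∀ e, NS k e → u.filter (pe k e) = v.filter (pe k e)) {e : ℕ} (he : NS k e) :
    u.count e = v.count e := by
  have h1 : ∀ l : List ℕ, (l.filter (pe k e)).count e = l.count e := fun l =>
    List.count_filter (pe_true.2 (Or.inl rfl))
  rw [← h1 u, ← h1 v, h e he]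

private theorem claim {β : FIC}
    (hS : ∀ (p q : List ℕ) (x y : ℕ), x ∈ p → y ∈ q →
      RR β (p ++ x :: y :: q) (p ++ y :: x :: q)) (k : ℕ) :
    ∀ (n : ℕ) (u v q : List ℕ), v.length = n →
      (∀ e, NS k e → u.filter (pe k e) = v.filter (pe k e)) →
      (∀ c ∈ u, NS k c → 2 ≤ (u ++ q).count c) →
      (∀ c d, NS k c → NS k d → c ∉ q → d ∉ q →
        (rl c d u).getLast? = (rl c d v).getLast?) →
      (∀ c d, NS k c → NS k d → (rl c d u).head? = (rl c d v).head?) →
      RR β (u ++ q) (v ++ q) := by
  intro n
  induction n with
  | zero =>
    intro u v q hv h1 _ _ _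
    have hv0 : v = [] := List.length_eq_zero_iff.1 hv
    subst hv0
    have hu : u = [] := by
      rw [List.eq_nil_iff_forall_not_mem]
      intro x hx
      by_cases hns : NS k x
      · have h2 := h1 x hns
        rw [List.filter_nil, List.filter_eq_nil_iff] at h2
        exact h2 x hx (pe_true.2 (Or.inl rfl))
      · have h2 := h1 0 (ns0 k)
        rw [List.filter_nil, List.filter_eq_nil_iff] at h2
        exact h2 x hx (pe_true.2 (Or.inr (not_not.1 hns)))
    rw [hu]
    exact RR.refl _
  | succ n ih =>
    intro u v q hv h1 h3 h4 h5
    obtain ⟨v', c, hvc⟩ : ∃ v' c, v = v' ++ [c] := by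
      rcases List.eq_nil_or_concat v with h | ⟨v', c, h⟩
      · rw [h] at hv
        exact absurd hv (by simp)
      · exact ⟨v', c, by rw [h, List.concat_eq_append]⟩
    subst hvc
    have hv' : v'.length = n := by
      rw [List.length_append, List.length_singleton] at hv
      omega
    by_cases hc : NS k c
    · -- `c` is not simple
      have hfc : u.filter (pe k c) = v'.filter (pe k c) ++ [c] := by
        rw [h1 c hc, List.filter_append]
        congr 1
        rw [List.filter_cons_of_pos (pe_true.2 (Or.inl rfl)), List.filter_nil]
      obtain ⟨u1, u2, hu, hu1, hu2⟩ := split_last hfc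
      have hu2' : ∀ x ∈ u2, x ≠ c ∧ NS k x := by
        intro x hx
        rw [List.filter_eq_nil_iff] at hu2
        have h6 := hu2 x hx
        rw [pe_true] at h6
        exact ⟨fun h => h6 (Or.inl h), fun h => h6 (Or.inr h)⟩
      have hcu2 : c ∉ u2 := fun h => (hu2' c h).1 rfl
      have hperm : (u1 ++ u2 ++ c :: q).Perm (u ++ q) := by
        rw [hu]
        have e1 : u1 ++ u2 ++ c :: q = (u1 ++ u2) ++ ([c] ++ q) := rfl
        have e2 : u1 ++ c :: u2 ++ q = u1 ++ ([c] ++ u2) ++ q := rfl
        rw [e1, e2, ← List.append_assoc, List.append_assoc u1 u2 [c]]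
        exact (List.Perm.append_left u1 List.perm_append_comm).append_right q
      -- the exchange
      have hstep : ∀ w1 d w2, u2 = w1 ++ d :: w2 →
          RR β ((u1 ++ w1) ++ c :: d :: (w2 ++ q)) ((u1 ++ w1) ++ d :: c :: (w2 ++ q)) := by
        intro w1 d w2 hw
        have hdu2 : d ∈ u2 := by
          rw [hw]
          exact List.mem_append_right _ List.mem_cons_self
        obtain ⟨hdc, hdns⟩ := hu2' d hdu2
        have hdu : d ∈ u := by
          rw [hu]
          exact List.mem_append_right _ (List.mem_cons_of_mem _ hdu2)
        have hcu : c ∈ u := by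
          rw [hu]
          exact List.mem_append_right _ List.mem_cons_self
        have hcount := h3 c hcu hc
        have hcountd := h3 d hdu hdns
        have hcw1 : c ∉ w1 := fun h => hcu2 (by rw [hw]; exact List.mem_append_left _ h)
        have hcw2 : c ∉ w2 := fun h => hcu2 (by
          rw [hw]; exact List.mem_append_right _ (List.mem_cons_of_mem _ h))
        by_cases hcq : c ∈ q
        · by_cases hdp : d ∈ u1 ++ w1
          · exact (hS (u1 ++ w1) (w2 ++ q) d c hdp (List.mem_append_right _ hcq)).symm
          · have hd1 : d ∉ u1 := fun h => hdp (List.mem_append_left _ h)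
            have hd2 : d ∉ w1 := fun h => hdp (List.mem_append_right _ h)
            by_cases hcu1 : c ∈ u1
            · refine hS (u1 ++ w1) (w2 ++ q) c d (List.mem_append_left _ hcu1) ?_
              by_contra hcon
              have hd3 : d ∉ w2 := fun h => hcon (List.mem_append_left _ h)
              have hd4 : d ∉ q := fun h => hcon (List.mem_append_right _ h)
              rw [hu, hw] at hcountd
              simp only [List.count_append, List.count_cons, List.count_eq_zero.2 hd1,
                List.count_eq_zero.2 hd2, List.count_eq_zero.2 hd3,
                List.count_eq_zero.2 hd4] at hcountd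
              simp [Ne.symm hdc] at hcountd
            · exfalso
              have hcv : (v' ++ [c]).count c = 1 := by
                rw [← count_eq h1 hc, hu, List.count_append, List.count_cons_self,
                  List.count_eq_zero.2 hcu1, List.count_eq_zero.2 hcu2]
              have hcv' : c ∉ v' := by
                rw [List.count_append, List.count_singleton_self] at hcv
                exact List.count_eq_zero.1 (by omega)
              have hdv : d ∈ v' := by
                have h6 : 0 < (v' ++ [c]).count d := by
                  rw [← count_eq h1 hdns]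
                  exact List.count_pos_iff.2 hdu
                have h7 := List.count_pos_iff.1 h6
                rcases List.mem_append.1 h7 with h | h
                · exact h
                · exact absurd (List.mem_singleton.1 h) hdc
              have h6 := h5 c d hc hdns
              have h7 : (rl c d u).head? = some c := by
                rw [hu, rl_append, rl_nil_iff.2 ⟨hcu1, hd1⟩, List.nil_append, rl_cons_left]
                rfl
              have h8 : (rl c d (v' ++ [c])).head? = some d := by
                rw [rl_append, head_append (fun h => (rl_nil_iff.1 h).2 hdv)]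
                exact head_of_not_mem hcv' hdv
              rw [h7, h8] at h6
              exact hdc (Option.some_injective _ h6).symm
        · have hcu1 : c ∈ u1 := by
            by_contra hcon
            rw [hu] at hcount
            simp only [List.count_append, List.count_cons_self, List.count_eq_zero.2 hcon,
              List.count_eq_zero.2 hcu2, List.count_eq_zero.2 hcq] at hcount
            omega
          refine hS (u1 ++ w1) (w2 ++ q) c d (List.mem_append_left _ hcu1) ?_
          by_contra hcon
          have hd3 : d ∉ w2 := fun h => hcon (List.mem_append_left _ h)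
          have hd4 : d ∉ q := fun h => hcon (List.mem_append_right _ h)
          have h6 := h4 c d hc hdns hcq hd4
          have h7 : (rl c d u).getLast? = some d := by
            rw [hu, rl_append, rl_cons_left]
            have h8 : u1 ++ c :: u2 = (u1 ++ [c]) ++ u2 := by simp
            have h9 : rl c d u1 ++ c :: rl c d u2 = (rl c d u1 ++ [c]) ++ rl c d u2 := by simp
            rw [h9, getLast_append (fun h => (rl_nil_iff.1 h).2 hdu2)]
            exact last_of_not_mem hcu2 hdu2
          have h8 : (rl c d (v' ++ [c])).getLast? = some c := by
            rw [rl_append, rl_cons_left]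
            rw [getLast_append (by simp)]
            rw [rl_nil_iff.2 ⟨by simp, by simp⟩]
            rfl
          rw [h7, h8] at h6
          exact hdc (Option.some_injective _ h6)
      have hmove : ∀ w2 w1, u2 = w1 ++ w2 →
          RR β ((u1 ++ w1) ++ c :: (w2 ++ q)) (u1 ++ u2 ++ c :: q) := by
        intro w2
        induction w2 with
        | nil =>
          intro w1 hw
          rw [List.append_nil] at hw
          rw [← hw, List.nil_append]
          exact RR.refl _
        | cons d w2 ihw =>
          intro w1 hw
          have h6 := hstep w1 d w2 hw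
          have h7 := ihw (w1 ++ [d]) (by rw [hw]; simp)
          have e1 : (u1 ++ (w1 ++ [d])) ++ c :: (w2 ++ q) =
              (u1 ++ w1) ++ d :: c :: (w2 ++ q) := by simp
          rw [e1] at h7
          exact β.trans h6 h7
      have hm := hmove u2 [] rfl
      rw [List.append_nil] at hm
      have hm' : RR β (u ++ q) (u1 ++ u2 ++ c :: q) := by
        have e1 : u ++ q = u1 ++ c :: (u2 ++ q) := by
          rw [hu, List.append_assoc]
          rfl
        rw [e1]
        exact hm
      -- the induction hypothesis
      have hcv : c ∉ u1 → c ∉ v' := by
        intro hcu1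
        have h6 : (v' ++ [c]).count c = 1 := by
          rw [← count_eq h1 hc, hu, List.count_append, List.count_cons_self,
            List.count_eq_zero.2 hcu1, List.count_eq_zero.2 hcu2]
        rw [List.count_append, List.count_singleton_self] at h6
        exact List.count_eq_zero.1 (by omega)
      have hcu1' : c ∉ v' → c ∉ u1 := by
        intro hcv'
        have h6 : u.count c = 1 := by
          rw [count_eq h1 hc, List.count_append, List.count_singleton_self,
            List.count_eq_zero.2 hcv']
        rw [hu, List.count_append, List.count_cons_self] at h6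
        exact List.count_eq_zero.1 (by omega)
      have hmemuv : ∀ f, NS k f → f ≠ c → (f ∈ u1 ++ u2 ↔ f ∈ v') := by
        intro f hf hfc
        have h6 : u.count f = (v' ++ [c]).count f := count_eq h1 hf
        have h7 : u.count f = (u1 ++ u2).count f := by
          rw [hu, List.count_append, List.count_cons_of_ne (Ne.symm hfc), List.count_append]
        have h8 : (v' ++ [c]).count f = v'.count f := by
          rw [List.count_append, List.count_cons_of_ne (Ne.symm hfc), List.count_nil,
            Nat.add_zero]
        rw [← List.count_pos_iff, ← List.count_pos_iff, ← h7, h6, h8]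
      have hcmem : c ∈ u1 ++ u2 ↔ c ∈ v' := by
        rw [List.mem_append]
        constructor
        · rintro (h | h)
          · by_contra hcon
            exact hcu1' hcon h
          · exact absurd h hcu2
        · intro h
          left
          by_contra hcon
          exact hcv hcon h
      have hmem : ∀ f, NS k f → (f ∈ u1 ++ u2 ↔ f ∈ v') := by
        intro f hf
        by_cases hfc : f = c
        · rw [hfc]
          exact hcmem
        · exact hmemuv f hf hfc
      have hnilc : ∀ f, NS k f → (rl c f (u1 ++ u2)).head? = (rl c f v').head? := by
        intro f hf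
        by_cases hz : rl c f v' = []
        · have h6 := rl_nil_iff.1 hz
          have h7 : rl c f (u1 ++ u2) = [] :=
            rl_nil_iff.2 ⟨fun h => h6.1 (hcmem.1 h), fun h => h6.2 ((hmem f hf).1 h)⟩
          rw [hz, h7]
        · have h6 := h5 c f hc hf
          rw [rl_append, head_append hz] at h6
          by_cases hz1 : rl c f u1 = []
          · exfalso
            have h7 := rl_nil_iff.1 hz1
            rw [hu, rl_append, hz1, List.nil_append, rl_cons_left] at h6
            have hcv' := hcv h7.1
            have hfv : f ∈ v' := by
              by_contra hcon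
              exact hz (rl_nil_iff.2 ⟨hcv', hcon⟩)
            rw [head_of_not_mem hcv' hfv] at h6
            have h8 : c = f := Option.some_injective _ h6
            exact hcv' (h8 ▸ hfv)
          · rw [rl_append, head_append hz1, ← h6, hu, rl_append, head_append hz1]
      have hih := ih (u1 ++ u2) v' (c :: q) hv' ?_ ?_ ?_ ?_
      · have e2 : v' ++ [c] ++ q = v' ++ c :: q := by simp
        rw [e2]
        exact β.trans hm' hih
      · intro e he
        by_cases hec : e = c
        · subst hec
          rw [List.filter_append, hu1, hu2, List.append_nil]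
        · have h6 := h1 e he
          have h7 : pe k e c ≠ true := by
            rw [Ne, pe_true]
            rintro (h | h)
            · exact hec h.symm
            · exact hc h
          rw [hu, List.filter_append, List.filter_cons_of_neg h7, List.filter_append,
            List.filter_cons_of_neg h7, List.filter_nil, List.append_nil] at h6
          rw [List.filter_append]
          exact h6
      · intro x hx hxns
        rw [hperm.count_eq]
        refine h3 x ?_ hxns
        rw [hu]
        rcases List.mem_append.1 hx with h | h
        · exact List.mem_append_left _ h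
        · exact List.mem_append_right _ (List.mem_cons_of_mem _ h)
      · intro e f he hf heq hfq
        have hec : e ≠ c := fun h => heq (h ▸ List.mem_cons_self)
        have hfc : f ≠ c := fun h => hfq (h ▸ List.mem_cons_self)
        have h6 := h4 e f he hf (fun h => heq (List.mem_cons_of_mem _ h))
          (fun h => hfq (List.mem_cons_of_mem _ h))
        rw [hu, rl_append, rl_cons_of_ne _ (Ne.symm hec) (Ne.symm hfc), rl_append,
          rl_cons_of_ne _ (Ne.symm hec) (Ne.symm hfc)] at h6
        have h7 : rl e f ([] : List ℕ) = [] := rfl
        rw [h7, List.append_nil] at h6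
        rw [rl_append]
        exact h6
      · intro e f he hf
        by_cases hec : e = c
        · rw [hec]
          exact hnilc f hf
        · by_cases hfc : f = c
          · rw [hfc, rl_comm e c, rl_comm e c]
            exact hnilc e he
          · have h6 := h5 e f he hf
            rw [hu, rl_append, rl_cons_of_ne _ (Ne.symm hec) (Ne.symm hfc), rl_append,
              rl_cons_of_ne _ (Ne.symm hec) (Ne.symm hfc)] at h6
            have h7 : rl e f ([] : List ℕ) = [] := rfl
            rw [h7, List.append_nil] at h6
            rw [rl_append]
            exact h6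
    · -- `c` is simple
      have hcs : 2 ≤ c ∧ c ≤ k + 1 := not_not.1 hc
      have hfil : ∀ e, NS k e → u.filter (pe k e) = v'.filter (pe k e) ++ [c] := by
        intro e he
        rw [h1 e he, List.filter_append]
        congr 1
        rw [List.filter_cons_of_pos (pe_true.2 (Or.inr hcs)), List.filter_nil]
      obtain ⟨u', hu⟩ : ∃ u', u = u' ++ [c] := by
        rcases List.eq_nil_or_concat u with h | ⟨u', w, h⟩
        · have h6 := hfil 0 (ns0 k)
          rw [h, List.filter_nil] at h6
          exact absurd h6.symm (by simp)
        · rw [List.concat_eq_append] at h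
          by_cases hw : NS k w
          · have h6 := hfil w hw
            rw [h, List.filter_append, List.filter_cons_of_pos (pe_true.2 (Or.inl rfl)),
              List.filter_nil] at h6
            have h7 := (List.append_inj' h6 rfl).2
            rw [List.cons.injEq] at h7
            exact absurd (h7.1 ▸ hcs) hw
          · have h6 := hfil 0 (ns0 k)
            rw [h, List.filter_append,
              List.filter_cons_of_pos (pe_true.2 (Or.inr (not_not.1 hw))),
              List.filter_nil] at h6
            have h7 := (List.append_inj' h6 rfl).2
            rw [List.cons.injEq] at h7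
            exact ⟨u', by rw [h, h7.1]⟩
      have e1 : u ++ q = u' ++ c :: q := by
        rw [hu]
        simp
      have e2 : v' ++ [c] ++ q = v' ++ c :: q := by simp
      have hne : ∀ e, NS k e → c ≠ e := fun e he h => he (h ▸ hcs)
      have hnil : ∀ e f, rl e f ([] : List ℕ) = [] := fun _ _ => rfl
      rw [e1, e2]
      refine ih u' v' (c :: q) hv' ?_ ?_ ?_ ?_
      · intro e he
        have h6 := hfil e he
        rw [hu, List.filter_append, List.filter_cons_of_pos (pe_true.2 (Or.inr hcs)),
          List.filter_nil] at h6
        exact (List.append_inj' h6 rfl).1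
      · intro x hx hxns
        rw [← e1]
        refine h3 x ?_ hxns
        rw [hu]
        exact List.mem_append_left _ hx
      · intro e f he hf heq hfq
        have h6 := h4 e f he hf (fun h => heq (List.mem_cons_of_mem _ h))
          (fun h => hfq (List.mem_cons_of_mem _ h))
        rw [hu, rl_append, rl_append, rl_cons_of_ne _ (hne e he) (hne f hf), hnil,
          List.append_nil, List.append_nil] at h6
        exact h6
      · intro e f he hf
        have h6 := h5 e f he hf
        rw [hu, rl_append, rl_append, rl_cons_of_ne _ (hne e he) (hne f hf), hnil,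
          List.append_nil, List.append_nil] at h6
        exact h6

theorem nfs (hSGC : SgcStmt) : NfsStmt := by
  intro β hC k B B' hB hB' hcount hA hrl
  have hS : ∀ (p q : List ℕ) (x y : ℕ), x ∈ p → y ∈ q →
      RR β (p ++ x :: y :: q) (p ++ y :: x :: q) := fun p q x y => (hSGC β hC p q x y).1
  have hfil : ∀ (C : ℕ → List ℕ), BlkOk k C → ∀ e, NS k e →
      (asm k C).filter (pe k e) = asm k (fun j => List.replicate ((C j).count e) e) := by
    intro C hC' e he
    rw [asm_filter (pe k e) (fun c h2 h3 => pe_true.2 (Or.inr ⟨h2, h3⟩))]
    refine asm_congr fun j hj => ?_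
    rw [← List.filter_beq]
    refine List.filter_congr fun x hx => ?_
    have hns := hC' j hj x hx
    unfold pe
    by_cases hxe : x = e
    · simp [hxe]
    · have h1 : ¬ (x = e ∨ (2 ≤ x ∧ x ≤ k + 1)) := by
        rintro (h | h)
        · exact hxe h
        · exact hns h
      rw [decide_eq_false h1]
      simp [hxe]
  have h := claim hS k _ (asm k B) (asm k B') [] rfl ?_ ?_ ?_ ?_
  · simpa using h
  · intro e he
    rw [hfil B hB e he, hfil B' hB' e he]
    refine asm_congr fun j hj => ?_
    rw [hcount j hj e]
  · intro c hc hns
    rw [List.append_nil, count_asm hns]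
    rcases mem_asm.1 hc with h | ⟨j, hj, h⟩
    · exact absurd h hns
    · exact hA j hj c h
  · intro c d hc hd _ _
    exact (hrl c d hc hd).2
  · intro c d hc hd
    exact (hrl c d hc hd).1

end Pool.Agent.MVO.H66
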