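import Pool.Agent.MVO.StmtsN
import Pool.Agent.Helper6_MVO.SEQ

set_option autoImplicit false

/-! Row WBL of the squad MVO: words related to a word in blocks with the letters `0`, `1`. -/

namespace Pool.Agent.MVO.H66

open Pool.Agent.Helper14_MV Pool.Agent.Helper2_MV Pool.Agent.MVO

private theorem count_le2 {β : FIC} (hβ : β ≤ thC3) {u v : List ℕ} (h : RR β u v) {c : ℕ}
    (hc : u.count c ≤ 2) : v.count c = u.count c := by
  have h1 := cnt_thC3 (hβ _ _ h) (i := c) hc
  exact h1

private theorem deg_zero_of_sep {k : ℕ} {C : ℕ → List ℕ} (hC : BlkOk k C) {c : ℕ}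
    (hc : ¬ NS k c) : deg k (fun j => (C j).count c) = 0 := by
  unfold deg
  refine Finset.sum_eq_zero fun j hj => ?_
  rw [Finset.mem_range] at hj
  refine List.count_eq_zero.2 ?_
  intro hmem
  exact hc (hC j (by omega) c hmem)

theorem wbl : WblStmt := by
  intro β hβ hNC k B v hB hr
  have hok : BlkOk k B := by
    intro j hj c hc hs
    rcases hB j hj c hc with h | h <;> omega
  -- the letters of `v`
  have hbig : ∀ c, k + 1 < c → v.count c = 0 := by
    intro c hc
    have h0 : (asm k B).count c = 0 := by
      rw [List.count_eq_zero]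
      intro hm
      rcases mem_asm.1 hm with h | ⟨j, hj, h⟩
      · omega
      · rcases hB j hj c h with h | h
        · omega
        · -- `c = 1`, impossible
          omega
    rw [count_le2 hβ hr (by omega), h0]
  have hsep : ∀ c, 2 ≤ c → c ≤ k + 1 → v.count c = 1 := by
    intro c h1 h2
    have h0 := count_sep hok h1 h2
    rw [count_le2 hβ hr (by omega), h0]
  set p : ℕ → Bool := fun c => decide (2 ≤ c ∧ c ≤ k + 1) with hpdef
  have h1 : (asm k B).filter p = seps k := filter_sep hok
  have h2 : (seps k).Perm (v.filter p) := by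
    rw [← h1, List.perm_iff_count]
    intro c
    by_cases hc : 2 ≤ c ∧ c ≤ k + 1
    · rw [List.count_filter (by rw [hpdef, decide_eq_true_iff]; exact hc),
        List.count_filter (by rw [hpdef, decide_eq_true_iff]; exact hc),
        hsep c hc.1 hc.2, count_sep hok hc.1 hc.2]
    · have h3 : ∀ l : List ℕ, (l.filter p).count c = 0 := by
        intro l
        rw [List.count_eq_zero]
        intro hm
        have h4 := (List.mem_filter.1 hm).2
        rw [hpdef, decide_eq_true_iff] at h4
        exact hc h4
      rw [h3, h3]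
  have h3 : RR β (seps k) (v.filter p) := h1 ▸ hr.filter p
  obtain ⟨B', hB', hv⟩ := dec (H6.seps_keep hNC h2 h3)
  have hlet : ∀ j ≤ k, ∀ c ∈ B' j, c = 0 ∨ c = 1 := by
    intro j hj c hc
    have hns := hB' j c hc
    have hm : c ∈ v := by
      rw [hv, mem_asm]
      exact Or.inr ⟨j, hj, hc⟩
    by_contra hcon
    have hc2 : 2 ≤ c := by omega
    have hck : k + 1 < c := by
      by_contra hle
      exact hns ⟨hc2, by omega⟩
    exact absurd hm (List.count_eq_zero.1 (hbig c hck))
  have hcongr : asm k (fun j => if j ≤ k then B' j else []) = asm k B' :=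
    asm_congr fun j hj => if_pos hj
  have hok' : BlkOk k (fun j => if j ≤ k then B' j else []) := by
    intro j hj c hc
    have hc : c ∈ (if j ≤ k then B' j else []) := hc
    rw [if_pos hj] at hc
    exact hB' j c hc
  refine ⟨fun j => if j ≤ k then B' j else [], ?_, ?_, ?_⟩
  · rw [hcongr, ← hv]
  · intro j c hc
    have hc : c ∈ (if j ≤ k then B' j else []) := hc
    by_cases hj : j ≤ k
    · rw [if_pos hj] at hc
      exact hlet j hj c hc
    · rw [if_neg hj] at hc
      exact absurd hc (List.not_mem_nil)
  · intro c hc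
    by_cases hns : NS k c
    · rw [← count_asm hns] at hc
      rw [← count_asm (B := fun j => if j ≤ k then B' j else []) hns, ← count_asm hns, hcongr,
        ← hv]
      exact count_le2 hβ hr hc
    · rw [deg_zero_of_sep hok hns, deg_zero_of_sep hok' hns]

end Pool.Agent.MVO.H66
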