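import Mathlib
import Pool.Agent.MVO.StmtsL

set_option autoImplicit false

/-! Row WUA of the squad MVO: unbalanced relations over `O1`. -/

namespace Pool.Agent.MVO.H66

/-! ### vectors -/

theorem mem_sp {k : ℕ} {a : ℕ → ℕ} {j : ℕ} : j ∈ sp k a ↔ j ≤ k ∧ a j ≠ 0 := by
  unfold sp
  rw [Finset.mem_filter, Finset.mem_range, Nat.lt_succ_iff]

theorem deg_sg {k i : ℕ} (d : ℕ) (hi : i ≤ k) : deg k (sg i d) = d := by
  unfold deg sg
  rw [Finset.sum_ite_eq', if_pos (Finset.mem_range.mpr (Nat.lt_succ_of_le hi))]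

theorem deg_add (k : ℕ) (a b : ℕ → ℕ) : deg k (fun j => a j + b j) = deg k a + deg k b :=
  Finset.sum_add_distrib

theorem deg_congr {k : ℕ} {a b : ℕ → ℕ} (h : ∀ j ≤ k, a j = b j) : deg k a = deg k b :=
  Finset.sum_congr rfl fun j hj => h j (Nat.lt_succ_iff.mp (Finset.mem_range.mp hj))

theorem psh_sg {k : ℕ} (f : ℕ → ℕ) {i : ℕ} (d : ℕ) (hi : i ≤ k) :
    psh k f (sg i d) = sg (f i) d := by
  funext j
  unfold psh sg
  rw [Finset.sum_eq_single i]
  · rw [if_pos rfl]
    by_cases h : f i = j
    · rw [if_pos h, if_pos h.symm]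
    · rw [if_neg h, if_neg fun h' => h h'.symm]
  · intro l _ hl
    rw [if_neg hl, ite_self]
  · intro h
    exact absurd (Finset.mem_range.mpr (Nat.lt_succ_of_le hi)) h

theorem deg_psh {k k' : ℕ} {f : ℕ → ℕ} (hf : ∀ i ≤ k, f i ≤ k') (a : ℕ → ℕ) :
    deg k' (psh k f a) = deg k a := by
  unfold deg psh
  rw [Finset.sum_comm]
  refine Finset.sum_congr rfl fun i hi => ?_
  rw [Finset.sum_ite_eq, if_pos]
  exact Finset.mem_range.mpr (Nat.lt_succ_of_le (hf i (Nat.lt_succ_iff.mp (Finset.mem_range.mp hi))))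

theorem sp_psh {k k' : ℕ} {f : ℕ → ℕ} (hf : ∀ i ≤ k, f i ≤ k') (a : ℕ → ℕ) :
    sp k' (psh k f a) = (sp k a).image f := by
  ext j
  rw [mem_sp, Finset.mem_image]
  constructor
  · rintro ⟨-, h⟩
    unfold psh at h
    obtain ⟨i, hi, hne⟩ := Finset.exists_ne_zero_of_sum_ne_zero h
    have hik := Nat.lt_succ_iff.mp (Finset.mem_range.mp hi)
    by_cases hij : f i = j
    · rw [if_pos hij] at hne
      exact ⟨i, mem_sp.mpr ⟨hik, hne⟩, hij⟩
    · rw [if_neg hij] at hne
      exact absurd rfl hne
  · rintro ⟨i, hi, rfl⟩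
    obtain ⟨hik, hne⟩ := mem_sp.mp hi
    refine ⟨hf i hik, fun h => hne ?_⟩
    unfold psh at h
    have := (Finset.sum_eq_zero_iff.mp h) i (Finset.mem_range.mpr (Nat.lt_succ_of_le hik))
    rwa [if_pos rfl] at this

theorem psh_self {k : ℕ} {f a : ℕ → ℕ} (hf : ∀ i ∈ sp k a, f i = i) :
    ∀ j ≤ k, psh k f a j = a j := by
  intro j hj
  unfold psh
  rw [Finset.sum_eq_single j]
  · by_cases h : a j = 0
    · rw [h, ite_self]
    · rw [if_pos (hf j (mem_sp.mpr ⟨hj, h⟩))]
  · intro i hi hij
    have hik := Nat.lt_succ_iff.mp (Finset.mem_range.mp hi)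
    by_cases h : a i = 0
    · rw [h, ite_self]
    · rw [if_neg]
      rw [hf i (mem_sp.mpr ⟨hik, h⟩)]
      exact hij
  · intro h
    exact absurd (Finset.mem_range.mpr (Nat.lt_succ_of_le hj)) h

theorem single {k s : ℕ} {z : ℕ → ℕ} (hs : s ≤ k) (h : ∀ j ≤ k, j ≠ s → z j = 0) :
    ∀ j ≤ k, z j = sg s (deg k z) j := by
  intro j hj
  unfold sg
  by_cases hjs : j = s
  · rw [if_pos hjs, hjs]
    unfold deg
    rw [Finset.sum_eq_single s]
    · intro i hi his
      exact h i (Nat.lt_succ_iff.mp (Finset.mem_range.mp hi)) his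
    · intro hn
      exact absurd (Finset.mem_range.mpr (Nat.lt_succ_of_le hs)) hn
  · rw [if_neg hjs, h j hj hjs]

/-- A retraction onto a nonempty set of blocks. -/
theorem exists_retraction {S : Finset ℕ} (hS : S.Nonempty) :
    ∃ f : ℕ → ℕ, Monotone f ∧ (∀ j, f j ∈ S) ∧ ∀ s ∈ S, f s = s := by
  set T : ℕ → Finset ℕ := fun j => insert (S.min' hS) (S.filter fun s => s ≤ j) with hT
  have hTn : ∀ j, (T j).Nonempty := fun j => Finset.insert_nonempty _ _
  have hTS : ∀ j, T j ⊆ S := by
    intro j x hx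
    rcases Finset.mem_insert.mp hx with rfl | hx
    · exact S.min'_mem hS
    · exact (Finset.mem_filter.mp hx).1
  refine ⟨fun j => (T j).max' (hTn j), ?_, fun j => hTS j ((T j).max'_mem (hTn j)), ?_⟩
  · intro i j hij
    refine Finset.max'_subset (hTn i) ?_
    exact Finset.insert_subset_insert _ (Finset.monotone_filter_right S fun s _ h => le_trans h hij)
  · intro s hs
    refine le_antisymm ?_ ?_
    · refine Finset.max'_le _ _ _ fun y hy => ?_
      rcases Finset.mem_insert.mp hy with rfl | hy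
      · exact S.min'_le s hs
      · exact (Finset.mem_filter.mp hy).2
    · exact (T s).le_max' s (Finset.mem_insert_of_mem (Finset.mem_filter.mpr ⟨hs, le_rfl⟩))

/-! ### one block -/

/-- `x^p ~ x^q`. -/
def E (R : FC) (p q : ℕ) : Prop := R.R 0 (sg 0 p) (sg 0 q)

/-- `x^m` is central. -/
def Cn (R : FC) (m : ℕ) : Prop := R.R 1 (sg 0 m) (sg 1 m)

theorem v2_left (m : ℕ) : v2 m 0 = sg 0 m := by
  funext j
  unfold v2 sg
  split_ifs <;> rfl

theorem v2_right (m : ℕ) : v2 0 m = sg 1 m := by
  funext j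
  unfold v2 sg
  split_ifs <;> first | rfl | omega

variable {R : FC}

theorem of_eq {k : ℕ} {a a' b b' : ℕ → ℕ} (ha : ∀ j ≤ k, a j = a' j) (hb : ∀ j ≤ k, b j = b' j)
    (h : R.R k a b) : R.R k a' b' := R.ext ha hb h

theorem rel_of_eq {k : ℕ} {a b : ℕ → ℕ} (h : ∀ j ≤ k, a j = b j) : R.R k a b :=
  R.ext (fun _ _ => rfl) h (R.refl k a)

theorem E_symm {p q : ℕ} (h : E R p q) : E R q p := R.symm h

theorem E_trans {p q r : ℕ} (h : E R p q) (h' : E R q r) : E R p r := R.trans h h'

theorem E_of {k : ℕ} {a b : ℕ → ℕ} (h : R.R k a b) : E R (deg k a) (deg k b) := by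
  have hb : BMap k 0 (fun _ => 0) := ⟨fun _ _ _ _ => le_rfl, fun _ _ => le_rfl⟩
  have key : ∀ a : ℕ → ℕ, ∀ j ≤ 0, psh k (fun _ => 0) a j = sg 0 (deg k a) j := by
    intro a j hj
    obtain rfl : j = 0 := by omega
    unfold psh sg deg
    simp
  exact of_eq (key a) (key b) (R.push 0 (fun _ => 0) hb h)

theorem E_add {p q : ℕ} (h : E R p q) (c : ℕ) : E R (p + c) (q + c) := by
  have key : ∀ p : ℕ, ∀ j ≤ 0, sg 0 p j + sg 0 c j = sg 0 (p + c) j := by
    intro p j hj
    obtain rfl : j = 0 := by omega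
    simp [sg]
  exact of_eq (key p) (key q) (R.add (sg 0 c) h)

theorem E_iter {p g : ℕ} (h : E R p (p + g)) : ∀ n : ℕ, E R p (p + n * g) := by
  intro n
  induction n with
  | zero =>
    rw [zero_mul, add_zero]
    exact R.refl _ _
  | succ n ih =>
    have h1 := E_add h (n * g)
    have h2 : p + g + n * g = p + (n + 1) * g := by ring
    rw [h2] at h1
    exact E_trans ih h1

theorem E_to {p q : ℕ} (h : E R p q) {k j : ℕ} (hj : j ≤ k) : R.R k (sg j p) (sg j q) := by
  have hb : BMap 0 k (fun _ => j) := ⟨fun _ _ _ _ => le_rfl, fun _ _ => hj⟩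
  have h1 := R.push k (fun _ => j) hb h
  rwa [psh_sg _ _ le_rfl, psh_sg _ _ le_rfl] at h1

theorem Cn_move {m : ℕ} (h : Cn R m) {k i j : ℕ} (hi : i ≤ k) (hj : j ≤ k) :
    R.R k (sg i m) (sg j m) := by
  have key : ∀ i j : ℕ, i ≤ k → j ≤ k → i ≤ j → R.R k (sg i m) (sg j m) := by
    intro i j hi hj hij
    have hb : BMap 1 k (fun t => if t = 0 then i else j) := by
      refine ⟨fun s t hst _ => ?_, fun t _ => ?_⟩
      · by_cases ht : t = 0
        · have hs : s = 0 := by omega
          rw [if_pos hs, if_pos ht]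
        · rw [if_neg ht]
          split_ifs
          · exact hij
          · exact le_rfl
      · split_ifs
        · exact hi
        · exact hj
    have h1 := R.push k (fun t => if t = 0 then i else j) hb h
    rw [psh_sg _ _ (Nat.zero_le 1), psh_sg _ _ le_rfl, if_pos rfl, if_neg one_ne_zero] at h1
    exact h1
  rcases le_total i j with hij | hij
  · exact key i j hi hj hij
  · exact R.symm (key j i hj hi hij)

theorem Cn_of_E {p N : ℕ} (h : E R p N) (hN : Cn R N) : Cn R p :=
  R.trans (E_to h (Nat.zero_le 1)) (R.trans hN (R.symm (E_to h le_rfl)))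

/-! ### emptying blocks -/

theorem empty_blocks (oaa : OaaStmt) (hO : O1 R) {K : ℕ} (hK : ∀ m, K ≤ m → Cn R m) (k : ℕ) :
    ∀ (n : ℕ) (z : ℕ → ℕ), (sp k z).card = n → K + n ≤ deg k z →
      ∀ s ∈ sp k z, R.R k z (sg s (deg k z)) := by
  classical
  intro n
  induction n with
  | zero =>
    intro z hz _ s hs
    rw [Finset.card_eq_zero] at hz
    rw [hz] at hs
    exact absurd hs (Finset.notMem_empty s)
  | succ n ih =>
    intro z hz hdeg s hs
    have hsk := (mem_sp.mp hs).1
    by_cases hex : ∃ i ∈ sp k z, i ≠ s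
    · obtain ⟨i, hi, his⟩ := hex
      have hik := (mem_sp.mp hi).1
      set T : Finset ℕ := (sp k z).erase i with hTdef
      set r : ℕ → ℕ := fun j => if j ∈ T then 1 else 0 with hr
      have hTcard : T.card = n := by
        rw [hTdef, Finset.card_erase_of_mem hi, hz]
        rfl
      have hTle : ∀ j ∈ T, j ≤ k := fun j hj => (mem_sp.mp (Finset.mem_of_mem_erase hj)).1
      have hrdeg : deg k r = n := by
        unfold deg
        rw [hr, Finset.sum_ite_mem, Finset.sum_const, smul_eq_mul, mul_one]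
        rw [Finset.inter_eq_right.mpr, hTcard]
        intro j hj
        exact Finset.mem_range.mpr (Nat.lt_succ_of_le (hTle j hj))
      obtain ⟨m, hm⟩ : ∃ m, deg k z = m + n := ⟨deg k z - n, by omega⟩
      have hmK : K ≤ m := by omega
      have hm1 : m ≠ 0 := by omega
      have hiT : i ∉ T := Finset.notMem_erase i _
      have hsT : s ∈ T := Finset.mem_erase.mpr ⟨fun h => his h.symm, hs⟩
      -- rearrange inside the support
      have h1 : R.R k z (fun j => sg i m j + r j) := by
        refine oaa R k _ _ (Or.inl hO) ?_ ?_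
        · rw [deg_add, deg_sg m hik, hrdeg, hm]
        · ext j
          rw [mem_sp, mem_sp]
          refine and_congr_right fun hj => ?_
          constructor
          · intro hzj
            by_cases hji : j = i
            · rw [hji]
              simp only [sg, if_true]
              omega
            · have : j ∈ T := Finset.mem_erase.mpr ⟨hji, mem_sp.mpr ⟨hj, hzj⟩⟩
              simp only [hr, this, if_true]
              omega
          · intro h
            by_cases hji : j = i
            · rw [hji]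
              exact (mem_sp.mp hi).2
            · by_cases hjT : j ∈ T
              · exact (mem_sp.mp (Finset.mem_of_mem_erase hjT)).2
              · exfalso
                apply h
                simp only [sg, hr, hji, hjT, if_false]
      -- move the block
      have h2 : R.R k (fun j => sg i m j + r j) (fun j => sg s m j + r j) :=
        R.add r (Cn_move (hK m hmK) hik hsk)
      have h3deg : deg k (fun j => sg s m j + r j) = deg k z := by
        rw [deg_add, deg_sg m hsk, hrdeg, hm]
      have h3sp : sp k (fun j => sg s m j + r j) = T := by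
        ext j
        rw [mem_sp]
        constructor
        · rintro ⟨hj, h⟩
          by_contra hjT
          apply h
          have hjs : j ≠ s := fun e => hjT (e ▸ hsT)
          simp only [sg, hr, hjs, hjT, if_false]
        · intro hjT
          refine ⟨hTle j hjT, ?_⟩
          simp only [hr, hjT, if_true]
          omega
      have h4 := ih (fun j => sg s m j + r j) (by rw [h3sp, hTcard]) (by rw [h3deg]; omega) s
        (by rw [h3sp]; exact hsT)
      rw [h3deg] at h4
      exact R.trans h1 (R.trans h2 h4)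
    · refine rel_of_eq (single hsk fun j hj hjs => ?_)
      by_contra hne
      exact hex ⟨j, mem_sp.mpr ⟨hj, hne⟩, hjs⟩

/-! ### the same support -/

theorem same_support (oaa : OaaStmt) (hO : O1 R) {K : ℕ} (hK : ∀ m, K ≤ m → Cn R m) {k : ℕ}
    {c c1 : ℕ → ℕ} (h : R.R k c c1) (hdeg : deg k c < deg k c1) (hsp : sp k c = sp k c1) {s : ℕ}
    (hs : s ∈ sp k c) : R.R k c (sg s (deg k c)) := by
  have hsk := (mem_sp.mp hs).1
  obtain ⟨g, hg⟩ : ∃ g, deg k c1 = deg k c + g := ⟨deg k c1 - deg k c, by omega⟩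
  have hg1 : 1 ≤ g := by omega
  have hE : E R (deg k c) (deg k c + g) := hg ▸ E_of h
  -- supports of `c + x e_s`
  have hsupp : ∀ x : ℕ, sp k (fun j => c j + sg s x j) = sp k c := by
    intro x
    ext j
    rw [mem_sp, mem_sp]
    refine and_congr_right fun _ => ?_
    by_cases hjs : j = s
    · rw [hjs]
      have := (mem_sp.mp hs).2
      constructor
      · intro _
        exact this
      · intro _
        omega
    · simp only [sg, hjs, if_false, add_zero]
  have h1 : R.R k c (fun j => c j + sg s g j) := by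
    refine R.trans h (oaa R k _ _ (Or.inl hO) ?_ ?_)
    · rw [deg_add, deg_sg g hsk, hg]
    · rw [hsupp, hsp]
  have hiter : ∀ n : ℕ, R.R k c (fun j => c j + sg s (n * g) j) := by
    intro n
    induction n with
    | zero =>
      refine rel_of_eq fun j _ => ?_
      rw [zero_mul]
      simp [sg]
    | succ n ih =>
      refine R.trans ih ?_
      refine of_eq (fun _ _ => rfl) ?_ (R.add (sg s (n * g)) h1)
      intro j _
      have hmul : (n + 1) * g = g + n * g := by ring
      unfold sg
      split_ifs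
      · rw [hmul]
        ring
      · rfl
  set n := K + (sp k c).card with hn
  have hz := hiter n
  have hzdeg : deg k (fun j => c j + sg s (n * g) j) = deg k c + n * g := by
    rw [deg_add, deg_sg _ hsk]
  have hle : n ≤ n * g := Nat.le_mul_of_pos_right n hg1
  have hemp := empty_blocks oaa hO hK k (sp k c).card (fun j => c j + sg s (n * g) j)
    (by rw [hsupp]) (by rw [hzdeg]; omega) s (by rw [hsupp]; exact hs)
  rw [hzdeg] at hemp
  exact R.trans hz (R.trans hemp (R.symm (E_to (E_iter hE n) hsk)))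

/-! ### the general case -/

theorem general (oaa : OaaStmt) (hO : O1 R) {K : ℕ} (hK : ∀ m, K ≤ m → Cn R m) {k : ℕ}
    {c c' : ℕ → ℕ} (h : R.R k c c') (hdeg : deg k c < deg k c') :
    ∃ j ≤ k, R.R k c (sg j (deg k c)) := by
  classical
  by_cases hS : (sp k c).Nonempty
  · obtain ⟨f, hf1, hf2, hf3⟩ := exists_retraction hS
    have hfk : ∀ i, f i ≤ k := fun i => (mem_sp.mp (hf2 i)).1
    have hfb : BMap k k f := ⟨fun i j hij _ => hf1 hij, fun i _ => hfk i⟩
    have hc1 : R.R k c (psh k f c') :=
      of_eq (psh_self hf3) (fun _ _ => rfl) (R.push k f hfb h)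
    have hdeg1 : deg k (psh k f c') = deg k c' := deg_psh (fun i _ => hfk i) c'
    have hsub : sp k (psh k f c') ⊆ sp k c := by
      rw [sp_psh (fun i _ => hfk i)]
      intro j hj
      obtain ⟨i, _, rfl⟩ := Finset.mem_image.mp hj
      exact hf2 i
    have hS1 : (sp k (psh k f c')).Nonempty := by
      by_contra hne
      rw [Finset.not_nonempty_iff_eq_empty] at hne
      have hzero : deg k (psh k f c') = 0 := by
        unfold deg
        refine Finset.sum_eq_zero fun j hj => ?_
        by_contra hj0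
        have : j ∈ sp k (psh k f c') :=
          mem_sp.mpr ⟨Nat.lt_succ_iff.mp (Finset.mem_range.mp hj), hj0⟩
        rw [hne] at this
        exact Finset.notMem_empty j this
      omega
    obtain ⟨g, hg1, hg2, hg3⟩ := exists_retraction hS1
    have hgk : ∀ i, g i ≤ k := fun i => (mem_sp.mp (hg2 i)).1
    have hgb : BMap k k g := ⟨fun i j hij _ => hg1 hij, fun i _ => hgk i⟩
    have hc2 : R.R k (psh k g c) (psh k f c') :=
      of_eq (fun _ _ => rfl) (psh_self hg3) (R.push k g hgb hc1)
    have hdeg2 : deg k (psh k g c) = deg k c := deg_psh (fun i _ => hgk i) c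
    have hsp2 : sp k (psh k g c) = sp k (psh k f c') := by
      rw [sp_psh (fun i _ => hgk i)]
      ext j
      rw [Finset.mem_image]
      constructor
      · rintro ⟨i, _, rfl⟩
        exact hg2 i
      · intro hj
        exact ⟨j, hsub hj, hg3 j hj⟩
    obtain ⟨s, hs⟩ := hS1
    have hfin := same_support oaa hO hK hc2 (by rw [hdeg2, hdeg1]; exact hdeg) hsp2
      (by rw [hsp2]; exact hs)
    rw [hdeg2] at hfin
    exact ⟨s, (mem_sp.mp hs).1, R.trans hc1 (R.trans (R.symm hc2) hfin)⟩
  · refine ⟨0, Nat.zero_le k, rel_of_eq (single (Nat.zero_le k) fun j hj _ => ?_)⟩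
    by_contra hne
    exact hS ⟨j, mem_sp.mpr ⟨hj, hne⟩⟩

theorem wua (oaa : OaaStmt) : WuaStmt := by
  intro R hO hC k a b _ hne hab
  obtain ⟨K, hK'⟩ := hC
  have hK : ∀ m, K ≤ m → Cn R m := by
    intro m hm
    have := hK' m hm
    rwa [v2_left, v2_right] at this
  have hE := E_of hab
  -- the smaller degree
  have hcen : ∀ p q : ℕ, p < q → E R p q → Cn R p ∧ Cn R q := by
    intro p q hpq h
    obtain ⟨g, rfl⟩ : ∃ g, q = p + g := ⟨q - p, by omega⟩
    have hg1 : 1 ≤ g := by omega
    have hle : K ≤ K * g := Nat.le_mul_of_pos_right K hg1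
    have h1 := E_iter h K
    have hN : Cn R (p + K * g) := hK _ (by omega)
    exact ⟨Cn_of_E h1 hN, Cn_of_E (E_trans (E_symm h) h1) hN⟩
  have hCa : Cn R (deg k a) := by
    rcases lt_or_gt_of_ne hne with hlt | hgt
    · exact (hcen _ _ hlt hE).1
    · exact (hcen _ _ hgt (E_symm hE)).2
  have hex : ∃ j ≤ k, R.R k a (sg j (deg k a)) := by
    rcases lt_or_gt_of_ne hne with hlt | hgt
    · exact general oaa hO hK hab hlt
    · obtain ⟨j, hj, h⟩ := general oaa hO hK (R.symm hab) hgt
      exact ⟨j, hj, R.trans hab (R.trans h (E_to (E_symm hE) hj))⟩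
  obtain ⟨j, hj, h⟩ := hex
  refine ⟨fun i hi => R.trans h (Cn_move hCa hj hi), ?_⟩
  rw [v2_left, v2_right]
  exact hCa

end Pool.Agent.MVO.H66
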