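import Pool.Agent.MVO.StmtsV
import Pool.Agent.Helper97_MVO.GTB

/-!
# Squad MVO, row GVB: the congruences of a set of pairs of types lie above the congruence, class Va
-/

namespace Pool.Agent.MVO.H66

open Pool.Agent.MVO Pool.Agent.Helper14_MV Pool.Agent.Helper2_MV

/-- the word depends only on the order in block `i`, if `i` is the only common block -/
theorem gvb_w2 {k i : ℕ} {a b : ℕ → ℕ} (h : ∀ j ≤ k, j ≠ i → a j = 0 ∨ b j = 0)
    {e e' : ℕ → Bool} (he : e i = e' i) : w2 k a b e = w2 k a b e' := by
  unfold w2
  apply asm_congr
  intro j hj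
  by_cases hji : j = i
  · rw [hji, he]
  · rcases h j hj hji with h0 | h0
    · rw [h0]
      unfold bl
      cases e j <;> cases e' j <;> simp
    · rw [h0]
      unfold bl
      cases e j <;> cases e' j <;> simp

/-- change of the types -/
theorem gvb_change {β : FIC} {k : ℕ} {a a' b b' : ℕ → ℕ} (ha : L1 β k a a') (hb : L1 β k b b')
    (e : ℕ → Bool) : RR β (w2 k a b e) (w2 k a' b' e) := by
  have h1 := rr_ins' β (fun j => if e j then List.replicate (b j) 1 else [])
    (fun j => if e j then [] else List.replicate (b j) 1) (blkOk_mw k a) (blkOk_mw k a') ha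
  have h2 := rr_ins β (fun j => if e j then [] else List.replicate (a' j) 0)
    (fun j => if e j then List.replicate (a' j) 0 else []) (fun _ => [1])
    (blkOk_mw k b) (blkOk_mw k b') hb
  have hrep : ∀ n : ℕ, (List.replicate n 0).flatMap (fun _ => [1]) = List.replicate n 1 := by
    intro n
    induction n with
    | zero => rfl
    | succ n ih =>
      rw [List.replicate_succ, List.flatMap_cons, ih, List.replicate_succ]
      rfl
  simp only [hrep] at h2
  have e1 : ∀ c : ℕ → ℕ, asm k (fun j => (if e j then List.replicate (b j) 1 else []) ++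
      List.replicate (c j) 0 ++ (if e j then [] else List.replicate (b j) 1)) = w2 k c b e := by
    intro c
    unfold w2
    apply asm_congr
    intro j _
    unfold bl
    cases e j <;> simp
  have e2 : ∀ c : ℕ → ℕ, asm k (fun j => (if e j then [] else List.replicate (a' j) 0) ++
      List.replicate (c j) 1 ++ (if e j then List.replicate (a' j) 0 else [])) = w2 k a' c e := by
    intro c
    unfold w2
    apply asm_congr
    intro j _
    unfold bl
    cases e j <;> simp
  rw [e1, e1] at h1
  rw [e2, e2] at h2
  exact β.trans h1 h2

theorem gvb (wbl : WblStmt) (glv : GlvStmt) (fv1 : Fv1Stmt) : GvbStmt := by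
  classical
  intro β h3 hnc hve k i T hi hT hTl hcls hno
  have key : ∀ W W' : Word, β.r W W' → QV k i T W → QV k i T W' := by
    rintro W W' hW ⟨B, hB, hlet, hTB, hlast⟩
    have hr : RR β (asm k B) W'.toList := by
      unfold RR
      rw [← hB, FreeMonoid.ofList_toList, FreeMonoid.ofList_toList]
      exact hW
    obtain ⟨B', hB', hlet', _⟩ := wbl β h3 hnc k B W'.toList hlet hr
    rw [hB'] at hr
    have hlet2 : ∀ j ≤ k, ∀ c ∈ B' j, c = 0 ∨ c = 1 := fun j _ => hlet' j
    have hL0 := H97.gtb_L1 (H97.gtb_blk hlet) (H97.gtb_blk hlet2) hr 0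
    have hL1 := H97.gtb_L1 (H97.gtb_blk hlet) (H97.gtb_blk hlet2) hr 1
    have hT' := hcls _ _ _ _ hTB hL0 hL1
    refine ⟨B', hB', hlet2, hT', ?_⟩
    obtain ⟨da, db, ai, bi⟩ := hTl _ _ hTB
    obtain ⟨da', db', ai', bi'⟩ := hTl _ _ hT'
    by_contra hne
    have hlast' : (B' i).getLast? = some 0 := by
      have hnn : B' i ≠ [] := by
        intro h0
        have h1 : 1 ≤ (B' i).count 0 := ai'
        rw [h0, List.count_nil] at h1
        omega
      have h4 := List.getLast_mem hnn
      have h5 := List.getLast?_eq_getLast_of_ne_nil hnn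
      rcases hlet2 i hi _ h4 with h6 | h6
      · rw [h5, h6]
      · rw [h6] at h5
        exact absurd h5 hne
    have hVR : VR k (fun j => (B j).count 0) (fun j => (B j).count 1) i := by
      by_contra hV
      exact hno _ _ hTB ((fv1 β hve).1 k _ _ i da db hi hV)
    -- the four relations
    have c1 : RR β (asm k B) (w2 k (fun j => (B j).count 0) (fun j => (B j).count 1)
        (fun _ => false)) := by
      apply glv β hve.1 k B (fun _ => false) hlet da db
      intro j hj h0 h1
      by_cases hji : j = i
      · rw [hji]
        exact ⟨fun _ => hlast, fun _ => rfl⟩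
      · exfalso
        have h0' : 0 < (B j).count 0 := List.count_pos_iff.2 h0
        have h1' : 0 < (B j).count 1 := List.count_pos_iff.2 h1
        rcases hVR.1 j hj hji with h2 | h2
        · have h2' : (B j).count 0 = 0 := h2
          omega
        · have h2' : (B j).count 1 = 0 := h2
          omega
    let e' : ℕ → Bool := fun j => !decide ((B' j).getLast? = some 1)
    have he'i : e' i = true := by
      change (!decide ((B' i).getLast? = some 1)) = true
      rw [hlast']
      decide
    have c2 : RR β (asm k B') (w2 k (fun j => (B' j).count 0) (fun j => (B' j).count 1) e') := by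
      apply glv β hve.1 k B' e' hlet2 da' db'
      intro j _ _ _
      change (!decide ((B' j).getLast? = some 1)) = false ↔ _
      rw [Bool.not_eq_false', decide_eq_true_iff]
    have c3 := gvb_change hL0 hL1 e'
    have c4 : RR β (w2 k (fun j => (B j).count 0) (fun j => (B j).count 1) (fun _ => false))
        (w2 k (fun j => (B j).count 0) (fun j => (B j).count 1) e') :=
      β.trans (β.symm c1) (β.trans hr (β.trans c2 (β.symm c3)))
    apply hno _ _ hTB
    intro e
    unfold Ex
    cases he : e i with
    | false =>
      rw [gvb_w2 hVR.1 (e := e) (e' := fun _ => false) he,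
        gvb_w2 hVR.1 (e := flp e i) (e' := e') (by
          rw [he'i]
          unfold flp
          rw [if_pos rfl, he]
          rfl)]
      exact c4
    | true =>
      rw [gvb_w2 hVR.1 (e := e) (e' := e') (by rw [he'i, he]),
        gvb_w2 hVR.1 (e := flp e i) (e' := fun _ => false) (by
          unfold flp
          rw [if_pos rfl, he]
          rfl)]
      exact β.symm c4
  intro u v huv φ m q
  constructor
  · exact key _ _ (β.mul (β.mul (β.refl m) (β.sub φ huv)) (β.refl q))
  · exact key _ _ (β.mul (β.mul (β.refl m) (β.sub φ (β.symm huv))) (β.refl q))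

end Pool.Agent.MVO.H66
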